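import Mathlib

/-!
# Definitions for mod `p` modularity, specialised to `G = SL_3`

The dual group of `SL_3` is `PGL_3`. A character `x` of the diagonal torus of `SL_3` is written as
`x : Fin 3 → ℤ`, standing for `diag(t₀,t₁,t₂) ↦ t₀^{x 0} t₁^{x 1} t₂^{x 2}`; two such tuples give the
same character iff they differ by a constant. The cocharacter `x^∨` of the dual torus is
`t ↦ diag(t^{x 0}, t^{x 1}, t^{x 2})` in `PGL_3`. The Borel subgroups are the upper triangular ones.
Places of `Qbar` are its valuation subrings.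
-/

open scoped TensorProduct

namespace Pool.Agent.H41.SLS.Three

/-! ## The Galois side -/

/-- `σ` is in the decomposition group of the place `A`. -/
def InDec (A : ValuationSubring (AlgebraicClosure ℚ))
    (σ : AlgebraicClosure ℚ ≃ₐ[ℚ] AlgebraicClosure ℚ) : Prop :=
  ∀ a, σ a ∈ A ↔ a ∈ A

/-- `σ` is in the inertia group of the place `A`: it acts trivially on the residue field. -/
def InInertia (A : ValuationSubring (AlgebraicClosure ℚ))
    (σ : AlgebraicClosure ℚ ≃ₐ[ℚ] AlgebraicClosure ℚ) : Prop :=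
  InDec A σ ∧ ∀ a ∈ A, σ a - a ∈ A.nonunits

/-- `r` is continuous (for the Krull topology and the discrete topology): it is trivial on the
automorphisms which fix some finite set. -/
def IsContinuous {k : Type} [Field k]
    (r : (AlgebraicClosure ℚ ≃ₐ[ℚ] AlgebraicClosure ℚ) →* Matrix.ProjGenLinGroup (Fin 3) k) : Prop :=
  ∃ s : Finset (AlgebraicClosure ℚ), ∀ σ, (∀ x ∈ s, σ x = x) → r σ = 1

/-- `c` is a complex conjugation. -/
def IsComplexConj (c : AlgebraicClosure ℚ ≃ₐ[ℚ] AlgebraicClosure ℚ) : Prop :=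
  ∃ ι : AlgebraicClosure ℚ →+* ℂ, ∀ z, ι (c z) = (starRingEnd ℂ) (ι z)

/-- `t` is the trace of the map induced by the conjugation by `b` on the quotient `L` of `M_3(k)`. -/
def IsTraceAd {k : Type} [Field k] {L : Type} [AddCommGroup L] [Module k L]
    (q : Matrix (Fin 3) (Fin 3) k →ₗ[k] L) (b : GL (Fin 3) k) (t : k) : Prop :=
  ∃ T : L →ₗ[k] L, (∀ X, T (q X) = q (b.val * X * b⁻¹.val)) ∧ LinearMap.trace k L T = t

/-- `r` is odd: for every complex conjugation `c`, the trace of `Ad(r(c))` on the Lie algebra of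
`PGL_3`, that is `M_3(k)` modulo the scalar matrices, is `rank(G) - 2 rank(K) = 2 - 2 * 1`, for
`G = SL_3` and `K = SO(3)`. -/
def IsOdd {k : Type} [Field k]
    (r : (AlgebraicClosure ℚ ≃ₐ[ℚ] AlgebraicClosure ℚ) →* Matrix.ProjGenLinGroup (Fin 3) k) : Prop :=
  ∀ c, IsComplexConj c → ∀ b : GL (Fin 3) k, Matrix.ProjGenLinGroup.mk b = r c →
    IsTraceAd (Submodule.span k {(1 : Matrix (Fin 3) (Fin 3) k)}).mkQ b (2 - 2 * 1)

/-- The matrix `b` is upper triangular. -/
def IsUpper {k : Type} [Field k] (b : GL (Fin 3) k) : Prop := ∀ i j : Fin 3, j < i → b.val i j = 0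

/-- `r` is nearly ordinary of type `x` at `p`: for every place `A` of `Qbar` over `p`, some conjugate of
`r` restricted to the decomposition group takes values in the upper triangular Borel subgroup of
`PGL_3(k)`, and its projection to the torus is `x^∨ ∘ ω` on the inertia group: if `σ` acts on the
`p`-th roots of unity as the `n`-th power then `ω(σ) = n`. -/
def NearlyOrdinary {k : Type} [Field k] (p : ℕ) (x : Fin 3 → ℤ)
    (r : (AlgebraicClosure ℚ ≃ₐ[ℚ] AlgebraicClosure ℚ) →* Matrix.ProjGenLinGroup (Fin 3) k) : Prop :=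
  ∀ A : ValuationSubring (AlgebraicClosure ℚ), (p : AlgebraicClosure ℚ) ∈ A.nonunits →
    ∃ g : Matrix.ProjGenLinGroup (Fin 3) k,
      (∀ σ, InDec A σ → ∃ b : GL (Fin 3) k, IsUpper b ∧
        Matrix.ProjGenLinGroup.mk b = g * r σ * g⁻¹) ∧
      ∀ σ, InInertia A σ → ∃ n : ℕ, (∀ ζ : AlgebraicClosure ℚ, ζ ^ p = 1 → σ ζ = ζ ^ n) ∧
        ∃ b : GL (Fin 3) k, IsUpper b ∧ Matrix.ProjGenLinGroup.mk b = g * r σ * g⁻¹ ∧
          ∀ i, b.val i i = (n : k) ^ x i

/-- `r` is unramified at the prime `l`. -/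
def UnramifiedAt {k : Type} [Field k] (l : ℕ)
    (r : (AlgebraicClosure ℚ ≃ₐ[ℚ] AlgebraicClosure ℚ) →* Matrix.ProjGenLinGroup (Fin 3) k) : Prop :=
  ∀ A : ValuationSubring (AlgebraicClosure ℚ), (l : AlgebraicClosure ℚ) ∈ A.nonunits →
    ∀ σ, InInertia A σ → r σ = 1

/-! ## The automorphic side -/

/-- The weight `x` is strongly regular: it pairs to at least `2` with both simple coroots. -/
def StronglyRegular (x : Fin 3 → ℤ) : Prop := 2 ≤ x 0 - x 1 ∧ 2 ≤ x 1 - x 2

/-- `ρ` is (the action of the group of rational points on) an irreducible algebraic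
representation of `SL_3` over `ℚ` of highest weight `lam`: it is finite dimensional, its matrix
coefficients are polynomials in the entries of `g`, it has no proper nonzero invariant subspace,
and it contains a nonzero vector on which upper triangular matrices act through `lam`. -/
structure IsIrrepOfHighestWeight {V : Type} [AddCommGroup V] [Module ℚ V]
    (ρ : Representation ℚ (Matrix.SpecialLinearGroup (Fin 3) ℚ) V) (lam : Fin 3 → ℤ) : Prop where
  finite : FiniteDimensional ℚ V
  algebraic : ∀ (f : V →ₗ[ℚ] ℚ) (x : V), ∃ P : MvPolynomial (Fin 3 × Fin 3) ℚ, ∀ g,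
    f (ρ g x) = MvPolynomial.eval (fun t => g.val t.1 t.2) P
  irreducible : ρ.IsIrreducible
  highest : ∃ v : V, v ≠ 0 ∧ ∀ b, (∀ i j : Fin 3, j < i → b.val i j = 0) →
    ρ b v = (∏ i, b.val i i ^ lam i) • v

/-- The subgroup `M` of `V` is a lattice which is stable under `SL_3(ℤ)`. -/
def StableLattice {V : Type} [AddCommGroup V] [Module ℚ V]
    (ρ : Representation ℚ (Matrix.SpecialLinearGroup (Fin 3) ℚ) V) (M : Submodule ℤ V) : Prop :=
  M.FG ∧ Submodule.span ℚ (M : Set V) = ⊤ ∧
    ∀ g : Matrix.SpecialLinearGroup (Fin 3) ℤ, ∀ x ∈ M, ρ (g.map (Int.castRingHom ℚ)) x ∈ M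

/-- The cohomology groups of `SL_3(ℤ)` with coefficients in `k ⊗ M` vanish in all degrees, for the
action of `SL_3(ℤ)` on `M` by the maps `f g`. -/
def Acyclic {M : Type} [AddCommGroup M] (f : Matrix.SpecialLinearGroup (Fin 3) ℤ → M → M)
    (k : Type) [Field k] : Prop :=
  ∃ τ : Representation k (Matrix.SpecialLinearGroup (Fin 3) ℤ) (k ⊗[ℤ] M),
    (∀ g (a : k) (x : M), τ g (a ⊗ₜ x) = a ⊗ₜ f g x) ∧
    ∀ n : ℕ, Subsingleton (groupCohomology (Rep.of τ) n)

/-- The cohomology groups of `SL_3(ℤ)` with coefficients in `k ⊗ M` vanish in all degrees, for the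
stable lattice `M` in the representation `ρ`. -/
def NoCohomology {V : Type} [AddCommGroup V] [Module ℚ V]
    (ρ : Representation ℚ (Matrix.SpecialLinearGroup (Fin 3) ℚ) V) (M : Submodule ℤ V)
    (k : Type) [Field k] : Prop :=
  ∃ f : Matrix.SpecialLinearGroup (Fin 3) ℤ → M → M,
    (∀ g (x : M), (f g x : V) = ρ (g.map (Int.castRingHom ℚ)) x) ∧ Acyclic f k

/-- An irreducible representation of highest weight `lam` and a stable lattice in it exist. -/
def LatticeExists (lam : Fin 3 → ℤ) (V : Type) [AddCommGroup V] [Module ℚ V] : Prop :=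
  ∃ (ρ : Representation ℚ (Matrix.SpecialLinearGroup (Fin 3) ℚ) V) (M : Submodule ℤ V),
    IsIrrepOfHighestWeight ρ lam ∧ StableLattice ρ M

/-- The cohomology vanishes in all degrees, for every irreducible representation on `V` of highest
weight `lam` and every stable lattice in it. -/
def Vanishing (lam : Fin 3 → ℤ) (V : Type) [AddCommGroup V] [Module ℚ V] (k : Type) [Field k] :
    Prop :=
  ∀ (ρ : Representation ℚ (Matrix.SpecialLinearGroup (Fin 3) ℚ) V) (M : Submodule ℤ V),
    IsIrrepOfHighestWeight ρ lam → StableLattice ρ M → NoCohomology ρ M k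

end Pool.Agent.H41.SLS.Three
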