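import Pool.Agent.SL3.Galois
import Pool.Agent.SL3.Final
import Pool.Agent.H41.SLS.Stmt3

open scoped TensorProduct Pointwise

namespace Pool.Agent.H41.SLS.Three

open Pool.Agent.SL3 (Qbar GQ)

theorem mem_dec {A : ValuationSubring Qbar} {σ : GQ} (h : InDec A σ) :
    σ ∈ A.decompositionSubgroup ℚ := by
  change σ ∈ MulAction.stabilizer (Qbar ≃ₐ[ℚ] Qbar) A
  rw [MulAction.mem_stabilizer_iff]
  ext x
  rw [ValuationSubring.mem_pointwise_smul_iff_inv_smul_mem]
  have h1 := h (σ⁻¹ x)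
  have h2 : σ (σ⁻¹ x) = x := by
    rw [← AlgEquiv.mul_apply, mul_inv_cancel, AlgEquiv.one_apply]
  rw [h2] at h1
  exact h1.symm

theorem mem_inertia {A : ValuationSubring Qbar} {σ : GQ} (h : InInertia A σ) :
    σ ∈ Pool.Agent.SL3.inertia A := by
  have hd := mem_dec h.1
  refine ⟨⟨σ, hd⟩, ?_, rfl⟩
  change (⟨σ, hd⟩ : A.decompositionSubgroup ℚ) ∈
    MonoidHom.ker (MulSemiringAction.toRingAut (A.decompositionSubgroup ℚ)
      (IsLocalRing.ResidueField A))
  rw [MonoidHom.mem_ker]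
  ext z
  obtain ⟨a, rfl⟩ := IsLocalRing.residue_surjective z
  change (⟨σ, hd⟩ : A.decompositionSubgroup ℚ) • IsLocalRing.residue A a = IsLocalRing.residue A a
  change IsLocalRing.residue A ((⟨σ, hd⟩ : A.decompositionSubgroup ℚ) • a) = IsLocalRing.residue A a
  rw [← sub_eq_zero, ← map_sub, IsLocalRing.residue_eq_zero_iff]
  have h3 := h.2 a.1 a.2
  rw [ValuationSubring.mem_nonunits_iff] at h3
  exact (ValuationSubring.valuation_lt_one_iff A _).2 h3

theorem continuous_finset {U : Set GQ} (hU : IsOpen U) (h1 : (1 : GQ) ∈ U) :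
    ∃ s : Finset Qbar, ∀ σ : GQ, (∀ x ∈ s, σ x = x) → σ ∈ U := by
  have h2 : U ∈ nhds (1 : GQ) := hU.mem_nhds h1
  rw [krullTopology_mem_nhds_one_iff] at h2
  obtain ⟨E, hE, hEU⟩ := h2
  obtain ⟨s, hs⟩ := (Module.Finite.fg_top : (⊤ : Submodule ℚ E).FG)
  classical
  refine ⟨s.image (fun e : E => (e : Qbar)), fun σ hσ => hEU ?_⟩
  rw [SetLike.mem_coe, IntermediateField.mem_fixingSubgroup_iff]
  intro x hx
  have h3 : (⟨x, hx⟩ : E) ∈ Submodule.span ℚ (s : Set E) := by rw [hs]; exact Submodule.mem_top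
  have h4 : ∀ y : E, y ∈ Submodule.span ℚ (s : Set E) → σ (y : Qbar) = y := by
    intro y hy
    induction hy using Submodule.span_induction with
    | mem y hy => exact hσ _ (Finset.mem_image_of_mem _ hy)
    | zero => simp
    | add y z _ _ hy hz =>
      change σ ((y : Qbar) + (z : Qbar)) = (y : Qbar) + (z : Qbar)
      rw [map_add, hy, hz]
    | smul a y _ hy =>
      change σ (a • (y : Qbar)) = a • (y : Qbar)
      have h5 : σ (a • (y : Qbar)) = a • σ (y : Qbar) := σ.toLinearEquiv.map_smul a _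
      rw [h5, hy]
  exact h4 _ h3

end Pool.Agent.H41.SLS.Three
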