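import Pool.Agent.H41.SLS.Bridge

open scoped TensorProduct

namespace Pool.Agent.H41.SLS.Three

open Pool.Agent.SL3 (Qbar GQ PGL3)

section Galois

variable {k : Type} [Field k] (r : GQ →* PGL3 k)

theorem isContinuous_of (h : Pool.Agent.SL3.IsContinuous r) : IsContinuous r := by
  obtain ⟨s, hs⟩ := continuous_finset (h {1}) (by simp)
  exact ⟨s, fun σ hσ => hs σ hσ⟩

theorem isOdd_of (h : Pool.Agent.SL3.IsOdd r) : IsOdd r := by
  intro c hc b hb
  have h1 := h c hc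
  rw [← hb, Pool.Agent.SL3.Ad_mk] at h1
  exact ⟨Pool.Agent.SL3.adGL b, fun _ => rfl, h1⟩

theorem unramifiedAt_of {l : ℕ} (h : Pool.Agent.SL3.UnramifiedAt l r) : UnramifiedAt l r := by
  intro A hA σ hσ
  exact h A ((ValuationSubring.mem_nonunits_iff A).1 hA) σ (mem_inertia hσ)

theorem nearlyOrdinary_of (p : ℕ) [Fact p.Prime] [CharP k p] {x : Fin 3 → ℤ}
    (h : Pool.Agent.SL3.NearlyOrdinary p x r) : NearlyOrdinary p x r := by
  intro A hA
  obtain ⟨g, hg1, hg2⟩ := h A ((ValuationSubring.mem_nonunits_iff A).1 hA)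
  refine ⟨g, fun σ hσ => hg1 σ (mem_dec hσ), fun σ hσ => ?_⟩
  obtain ⟨b, hb1, hb2, hb3⟩ := hg2 σ (mem_inertia hσ)
  refine ⟨((Pool.Agent.SL3.cyc p σ : (ZMod p)ˣ) : ZMod p).val,
    fun ζ hζ => Pool.Agent.SL3.cyc_spec p σ hζ, b, hb1, hb2, fun i => ?_⟩
  rw [hb3 i, Units.val_zpow_eq_zpow_val]
  congr 1
  change ZMod.castHom (dvd_refl p) k ((Pool.Agent.SL3.cyc p σ : (ZMod p)ˣ) : ZMod p) = _
  rw [ZMod.castHom_apply, ZMod.natCast_val]

end Galois

section Aut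

variable {V : Type} [AddCommGroup V] [Module ℚ V]
  {ρ : Representation ℚ (Matrix.SpecialLinearGroup (Fin 3) ℚ) V}

theorem isIrrep_of {lam : Fin 3 → ℤ} (h : Pool.Agent.SL3.IsIrrepOfHighestWeight ρ lam) :
    IsIrrepOfHighestWeight ρ lam := ⟨h.1, h.2, h.3, h.4⟩

theorem isIrrep_to {lam : Fin 3 → ℤ} (h : IsIrrepOfHighestWeight ρ lam) :
    Pool.Agent.SL3.IsIrrepOfHighestWeight ρ lam := ⟨h.1, h.2, h.3, h.4⟩

theorem stableLattice_of {M : Submodule ℤ V} (h : Submodule.IsLattice ℚ M)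
    (h2 : Pool.Agent.SL3.LatStable ρ M) : StableLattice ρ M :=
  ⟨h.1, h.2, h2⟩

theorem isLattice_of {M : Submodule ℤ V} (h : StableLattice ρ M) : Submodule.IsLattice ℚ M :=
  ⟨h.1, h.2.1⟩

theorem latticeExists_of {lam : Fin 3 → ℤ} {M : Submodule ℤ V}
    (h : Pool.Agent.SL3.IsIrrepOfHighestWeight ρ lam) (h1 : Submodule.IsLattice ℚ M)
    (h2 : Pool.Agent.SL3.LatStable ρ M) : LatticeExists lam V :=
  ⟨ρ, M, isIrrep_of h, stableLattice_of h1 h2⟩

theorem noCohomology_of {M : Submodule ℤ V} (hM : Pool.Agent.SL3.LatStable ρ M)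
    (k : Type) [Field k]
    (h : ∀ n : ℕ, Subsingleton (groupCohomology (Rep.of (Pool.Agent.SL3.latRep k hM)) n)) :
    NoCohomology ρ M k :=
  ⟨fun g x => Pool.Agent.SL3.latAct hM g x, fun _ _ => rfl, Pool.Agent.SL3.latRep k hM,
    fun _ _ _ => rfl, h⟩

end Aut

end Pool.Agent.H41.SLS.Three
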